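import Pool.Agent.Helper24.EG.Goals

/-!
# Packet EG-N2 (MP_98cfca_co): a recursive inequality with a uniform bound
-/

set_option autoImplicit false

namespace Pool.Agent.Helper77.EG

open Finset Filter Pool.Agent.Helper24.EG

/-- hypotheses of the recursion -/
def Hyp (K' α : ℝ) (c : ℕ → ℝ) : Prop := (∀ n, 0 ≤ c n) ∧
  (∀ n, 1 ≤ n → c n ≤ K' + K' * ∑ j ∈ Ico 1 n,
    ((n - 1).choose (j - 1) : ℝ) * c j * Real.exp (-(α * (j * (n - j : ℕ)))))

theorem sum_choose_le (n : ℕ) : ∑ j ∈ Ico 1 n, ((n - 1).choose (j - 1) : ℝ) ≤ 2 ^ n := by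
  rw [Finset.sum_Ico_eq_sum_range]
  have h1 : ∀ i ∈ range (n - 1), ((n - 1).choose (1 + i - 1) : ℝ) = ((n - 1).choose i : ℝ) := by
    intro i _
    rw [Nat.add_sub_cancel_left]
  rw [Finset.sum_congr rfl h1]
  have h2 : ∑ i ∈ range (n - 1), ((n - 1).choose i : ℝ) ≤
      ∑ i ∈ range (n - 1 + 1), ((n - 1).choose i : ℝ) :=
    Finset.sum_le_sum_of_subset_of_nonneg (Finset.range_mono (Nat.le_succ _))
      fun i _ _ => Nat.cast_nonneg _
  have h3 : ∑ i ∈ range (n - 1 + 1), ((n - 1).choose i : ℝ) = 2 ^ (n - 1) := by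
    exact_mod_cast Nat.sum_range_choose (n - 1)
  have h4 : (2 : ℝ) ^ (n - 1) ≤ 2 ^ n := pow_le_pow_right₀ (by norm_num) (Nat.sub_le n 1)
  linarith

theorem small (K' : ℝ) (hK : 1 ≤ K') (N : ℕ) : ∃ B : ℝ, 1 ≤ B ∧ ∀ α : ℝ, 0 ≤ α →
    ∀ c : ℕ → ℝ, Hyp K' α c → ∀ n, 1 ≤ n → n ≤ N → c n ≤ B := by
  induction N with
  | zero => exact ⟨1, le_refl 1, fun α _ c _ n h1 h2 => absurd h1 (by omega)⟩
  | succ N ih =>
    obtain ⟨B, hB1, hB⟩ := ih
    refine ⟨max B (K' + K' * (B * 2 ^ (N + 1))), le_max_of_le_left hB1, ?_⟩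
    intro α hα c hc n h1 h2
    rcases Nat.lt_or_ge n (N + 1) with h3 | h3
    · exact le_max_of_le_left (hB α hα c hc n h1 (by omega))
    · have h4 : n = N + 1 := by omega
      refine le_max_of_le_right ?_
      refine (hc.2 n h1).trans ?_
      have h5 : ∑ j ∈ Ico 1 n, ((n - 1).choose (j - 1) : ℝ) * c j *
          Real.exp (-(α * (j * (n - j : ℕ)))) ≤ B * 2 ^ (N + 1) := by
        have h6 : ∀ j ∈ Ico 1 n, ((n - 1).choose (j - 1) : ℝ) * c j *
            Real.exp (-(α * (j * (n - j : ℕ)))) ≤ B * ((n - 1).choose (j - 1) : ℝ) := by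
          intro j hj
          rw [mem_Ico] at hj
          have h7 := hB α hα c hc j hj.1 (by omega)
          have h8 : Real.exp (-(α * (j * (n - j : ℕ)))) ≤ 1 := by
            rw [Real.exp_le_one_iff]
            have : 0 ≤ α * ((j : ℝ) * ((n - j : ℕ) : ℝ)) := by positivity
            linarith
          have h9 : (0 : ℝ) ≤ ((n - 1).choose (j - 1) : ℝ) := Nat.cast_nonneg _
          have h10 := hc.1 j
          calc ((n - 1).choose (j - 1) : ℝ) * c j * Real.exp (-(α * (j * (n - j : ℕ))))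
              ≤ ((n - 1).choose (j - 1) : ℝ) * c j * 1 :=
                mul_le_mul_of_nonneg_left h8 (mul_nonneg h9 h10)
            _ ≤ ((n - 1).choose (j - 1) : ℝ) * B * 1 := by
                rw [mul_one, mul_one]
                exact mul_le_mul_of_nonneg_left h7 h9
            _ = B * ((n - 1).choose (j - 1) : ℝ) := by ring
        refine (Finset.sum_le_sum h6).trans ?_
        rw [← Finset.mul_sum, h4]
        exact mul_le_mul_of_nonneg_left (sum_choose_le (N + 1)) (by linarith)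
      have h6 : K' * ∑ j ∈ Ico 1 n, ((n - 1).choose (j - 1) : ℝ) * c j *
          Real.exp (-(α * (j * (n - j : ℕ)))) ≤ K' * (B * 2 ^ (N + 1)) :=
        mul_le_mul_of_nonneg_left h5 (by linarith)
      linarith

theorem lim (α₀ ε : ℝ) (hα : 0 < α₀) (hε : 0 < ε) : ∃ n₀ : ℕ, ∀ n : ℕ, n₀ ≤ n →
    (n : ℝ) ^ 2 * Real.exp (-(α₀ * n / 2)) ≤ ε := by
  have h1 := Real.tendsto_pow_mul_exp_neg_atTop_nhds_zero 2
  have h2 : Tendsto (fun n : ℕ => α₀ * (n : ℝ) / 2) atTop atTop := by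
    have h3 : Tendsto (fun n : ℕ => (n : ℝ) * (α₀ / 2)) atTop atTop :=
      tendsto_natCast_atTop_atTop.atTop_mul_const (by positivity)
    refine h3.congr fun n => ?_
    ring
  have h3 := h1.comp h2
  have h4 : ∀ᶠ n : ℕ in atTop, ((fun x : ℝ => x ^ 2 * Real.exp (-x)) ∘
      fun n : ℕ => α₀ * (n : ℝ) / 2) n < (α₀ / 2) ^ 2 * ε :=
    h3.eventually_lt_const (by positivity)
  obtain ⟨n₀, hn₀⟩ := eventually_atTop.1 h4
  refine ⟨n₀, fun n hn => ?_⟩
  have h5 := hn₀ n hn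
  simp only [Function.comp_apply] at h5
  have h6 : (α₀ / 2) ^ 2 * ((n : ℝ) ^ 2 * Real.exp (-(α₀ * n / 2))) < (α₀ / 2) ^ 2 * ε := by
    calc (α₀ / 2) ^ 2 * ((n : ℝ) ^ 2 * Real.exp (-(α₀ * n / 2)))
        = (α₀ * n / 2) ^ 2 * Real.exp (-(α₀ * n / 2)) := by ring
      _ < (α₀ / 2) ^ 2 * ε := h5
  exact (lt_of_mul_lt_mul_left h6 (by positivity)).le

/-- N2 -/
theorem gN2 (h3 : G_N3) : G_N2 := by
  intro α₀ K' hα₀ hK'
  obtain ⟨K₃, hK₃, hN3⟩ := h3 α₀ hα₀
  obtain ⟨n₀, hn₀⟩ := lim α₀ (1 / (2 * K' * K₃)) hα₀ (by positivity)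
  obtain ⟨B, hB1, hB⟩ := small K' hK' n₀
  refine ⟨max (2 * K') B, le_max_of_le_right hB1, ?_⟩
  intro α hα c hc0 hcr
  have hK2 : 2 * K' ≤ max (2 * K') B := le_max_left _ _
  have hKB : B ≤ max (2 * K') B := le_max_right _ _
  set K := max (2 * K') B with hK
  have hKpos : 0 < K := by linarith
  intro n
  induction n using Nat.strong_induction_on with
  | _ n ih =>
    intro h1
    rcases Nat.lt_or_ge n₀ n with hn | hn
    · refine (hcr n h1).trans ?_
      have h6 : ∀ j ∈ Ico 1 n, ((n - 1).choose (j - 1) : ℝ) * c j *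
          Real.exp (-(α * (j * (n - j : ℕ)))) ≤ K * (K₃ * n * Real.exp (-(α₀ * n / 2))) := by
        intro j hj
        rw [mem_Ico] at hj
        have h7 := ih j hj.2 hj.1
        have h8 := hN3 α hα n j hj.1 hj.2
        have h9 : Real.exp (-(α * n / 2)) ≤ Real.exp (-(α₀ * n / 2)) := by
          rw [Real.exp_le_exp]
          have : α₀ * (n : ℝ) ≤ α * n := mul_le_mul_of_nonneg_right hα (Nat.cast_nonneg n)
          linarith
        have h10 : (0 : ℝ) ≤ ((n - 1).choose (j - 1) : ℝ) * Real.exp (-(α * (j * (n - j : ℕ)))) :=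
          mul_nonneg (Nat.cast_nonneg _) (Real.exp_pos _).le
        calc ((n - 1).choose (j - 1) : ℝ) * c j * Real.exp (-(α * (j * (n - j : ℕ))))
            = c j * (((n - 1).choose (j - 1) : ℝ) * Real.exp (-(α * (j * (n - j : ℕ))))) := by ring
          _ ≤ K * (((n - 1).choose (j - 1) : ℝ) * Real.exp (-(α * (j * (n - j : ℕ))))) :=
              mul_le_mul_of_nonneg_right h7 h10
          _ ≤ K * (K₃ * n * Real.exp (-(α * n / 2))) := mul_le_mul_of_nonneg_left h8 hKpos.le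
          _ ≤ K * (K₃ * n * Real.exp (-(α₀ * n / 2))) := by
              refine mul_le_mul_of_nonneg_left ?_ hKpos.le
              exact mul_le_mul_of_nonneg_left h9 (by positivity)
      have h7 := Finset.sum_le_sum h6
      rw [Finset.sum_const, Nat.card_Ico, nsmul_eq_mul] at h7
      have h8 : ((n - 1 : ℕ) : ℝ) ≤ n := by exact_mod_cast Nat.sub_le n 1
      have h9 : 0 ≤ K * (K₃ * n * Real.exp (-(α₀ * n / 2))) := by positivity
      have h10 : ∑ j ∈ Ico 1 n, ((n - 1).choose (j - 1) : ℝ) * c j *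
          Real.exp (-(α * (j * (n - j : ℕ)))) ≤ K * (1 / (2 * K')) := by
        refine h7.trans ((mul_le_mul_of_nonneg_right h8 h9).trans ?_)
        have h11 := hn₀ n hn.le
        calc (n : ℝ) * (K * (K₃ * n * Real.exp (-(α₀ * n / 2))))
            = (K * K₃) * ((n : ℝ) ^ 2 * Real.exp (-(α₀ * n / 2))) := by ring
          _ ≤ (K * K₃) * (1 / (2 * K' * K₃)) := mul_le_mul_of_nonneg_left h11 (by positivity)
          _ = K * (1 / (2 * K')) := by field_simp
      have h11 : K' * ∑ j ∈ Ico 1 n, ((n - 1).choose (j - 1) : ℝ) * c j *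
          Real.exp (-(α * (j * (n - j : ℕ)))) ≤ K' * (K * (1 / (2 * K'))) :=
        mul_le_mul_of_nonneg_left h10 (by linarith)
      have h12 : K' * (K * (1 / (2 * K'))) = K / 2 := by field_simp
      linarith
    · exact (hB α (hα₀.le.trans hα) c ⟨hc0, hcr⟩ n h1 hn).trans hKB

end Pool.Agent.Helper77.EG
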